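import Mathlib
import Pool.Agent.Y718.RigidPer

/-!
# A nonprojective module over a local symmetric algebra with `Ext^1 = Ext^2 = 0`

Let `K` be a field and let `R` be a commutative local finite-dimensional symmetric `K`-algebra.
There are a local symmetric `K`-algebra `A`, of dimension `16 dim R`, which contains `R` in its
centre, and a finitely generated nonprojective right `A`-module `M` with `Ext^n_A(M, M) = 0` for
all `n` congruent to 1 or 2 modulo 4. In particular such algebras exist in every dimension `16 m`.
-/

set_option autoImplicit false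
set_option maxHeartbeats 4000000

universe u

open CategoryTheory Abelian MulOpposite

namespace Pool.Agent.Results.MP_92f261_al.TwoVanishingExts

/-- `A` is a symmetric algebra: there is an isomorphism `A ≅ D(A) = Hom_K(A, K)` of
`A`-`A`-bimodules, where `(a f c)(x) = f (c x a)` -/
def IsSymmetricAlgebra (K A : Type u) [Field K] [Ring A] [Algebra K A] : Prop :=
  ∃ e : A ≃ₗ[K] (A →ₗ[K] K), ∀ a b c x : A, e (a * b * c) x = e b (c * x * a)

/-- `A` has a finitely generated nonprojective right module `M` with `Ext^n_A(M, M) = 0` for all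
`n` congruent to 1 or 2 modulo 4. -/
def HasSparseModule (A : Type u) [Ring A] : Prop :=
  ∃ (M : Type u) (_ : AddCommGroup M) (_ : Module Aᵐᵒᵖ M),
    Module.Finite Aᵐᵒᵖ M ∧ ¬ Module.Projective Aᵐᵒᵖ M ∧
    ∀ n : ℕ, (n % 4 = 1 ∨ n % 4 = 2) →
      Subsingleton (Ext (ModuleCat.of Aᵐᵒᵖ M) (ModuleCat.of Aᵐᵒᵖ M) n)

open Pool.Agent.H468R3 Pool.Agent.Y718.RigidPer

section sym

variable (K R : Type u) [Field K] [CommRing R] [Algebra K R]

/-- the `K`-algebra structure of `B R` -/
@[reducible] def algK : Algebra K (B R) := Algebra.compHom (B R) (algebraMap K R)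

attribute [local instance] algK

theorem smul_c15 (t : K) (b : B R) : (t • b).c15 = t • b.c15 := by
  change (algebraMap K R t • b).c15 = _
  rw [B.smul_c15, Algebra.smul_def]

instance tower : IsScalarTower K R (B R) := ⟨fun t r b => by
  change (t • r) • b = (algebraMap K R t) • r • b
  rw [smul_smul, ← Algebra.smul_def t r]⟩

variable {K R}

/-- the form `(b, x) ↦ L (c15 (b x))` -/
def form (L : R →ₗ[K] K) : B R →ₗ[K] (B R →ₗ[K] K) :=
  LinearMap.mk₂ K (fun b x => L (b * x).c15)
    (fun a b x => by rw [add_mul, B.add_c15, map_add])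
    (fun t b x => by rw [smul_mul_assoc, smul_c15, map_smul])
    (fun b x y => by rw [mul_add, B.add_c15, map_add])
    (fun t b x => by rw [mul_smul_comm, smul_c15, map_smul])

theorem form_inj (L : R →ₗ[K] K) (hL : ∀ s, (∀ r, L (s * r) = 0) → s = 0) :
    Function.Injective (form L) := by
  rw [← LinearMap.ker_eq_bot, LinearMap.ker_eq_bot']
  intro b hb
  apply form_nondeg
  intro x
  apply hL
  intro r
  have h : L (b * (r • x)).c15 = 0 := by
    have := LinearMap.congr_fun hb (r • x)
    exact this
  rw [mul_smul_comm, B.smul_c15, mul_comm] at h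
  exact h

variable [FiniteDimensional K R]

theorem finrank_B : Module.finrank K (B R) = 16 * Module.finrank K R := by
  rcases subsingleton_or_nontrivial R with h | h
  · have : Subsingleton (B R) := ⟨fun a b => by
      ext <;> exact Subsingleton.elim _ _⟩
    rw [Module.finrank_zero_of_subsingleton, Module.finrank_zero_of_subsingleton]
  · have hf : Module.Free R (B R) := Module.Free.of_equiv (coord (R := R)).symm
    rw [← Module.finrank_mul_finrank K R (B R), LinearEquiv.finrank_eq (coord (R := R))]
    simp [mul_comm]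

theorem finite_B : FiniteDimensional K (B R) := by
  have h : Module.Finite R (B R) := Module.Finite.equiv (coord (R := R)).symm
  exact Module.Finite.trans R (B R)

theorem isSymmetric (h : IsSymmetricAlgebra K R) : IsSymmetricAlgebra K (B R) := by
  obtain ⟨e, he⟩ := h
  have := finite_B (K := K) (R := R)
  have hL : ∀ s, (∀ r, e 1 (s * r) = 0) → s = 0 := by
    intro s hs
    have : e s = 0 := by
      apply LinearMap.ext
      intro x
      have h1 := he 1 1 s x
      rw [one_mul, one_mul, mul_one] at h1
      rw [h1, hs x]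
      rfl
    exact (LinearEquiv.map_eq_zero_iff e).1 this
  refine ⟨LinearEquiv.ofInjectiveOfFinrankEq (form (e 1)) (form_inj _ hL) ?_, ?_⟩
  · exact (Subspace.dual_finrank_eq).symm
  · intro a b c x
    change e 1 (a * b * c * x).c15 = e 1 (b * (c * x * a)).c15
    rw [mul_assoc a b c, mul_assoc a, form_symm]
    simp only [mul_assoc]

end sym

/-- a symmetric algebra is selfinjective: Baer's criterion -/
theorem selfinjective (K A : Type u) [Field K] [Ring A] [Algebra K A] [FiniteDimensional K A]
    (h : IsSymmetricAlgebra K A) : Module.Injective Aᵐᵒᵖ A := by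
  obtain ⟨e, he⟩ := h
  apply Module.Baer.injective
  intro I g
  -- the linear functional `i ↦ e 1 (g i)` on the right ideal `I`
  let I' : Submodule K A :=
    { carrier := {x | op x ∈ I}
      add_mem' := fun {a b} ha hb => I.add_mem ha hb
      zero_mem' := I.zero_mem
      smul_mem' := fun t x hx => by
        have : op (t • x) = (op (algebraMap K A t)) * op x := by
          rw [← op_mul, Algebra.smul_def, Algebra.commutes]
        change op (t • x) ∈ I
        rw [this]
        exact I.mul_mem_left _ hx }
  have hadd (a b : A) (ha : op a ∈ I) (hb : op b ∈ I) (hab : op (a + b) ∈ I) :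
      g ⟨op (a + b), hab⟩ = g ⟨op a, ha⟩ + g ⟨op b, hb⟩ := by
    rw [← map_add]
    rfl
  have hmul (a b : A) (ha : op a ∈ I) (hab : op (a * b) ∈ I) :
      g ⟨op (a * b), hab⟩ = g ⟨op a, ha⟩ * b := by
    have : g ((op b) • (⟨op a, ha⟩ : I)) = (op b) • g ⟨op a, ha⟩ := map_smul g _ _
    exact this
  let L : I' →ₗ[K] K :=
    { toFun := fun i => e 1 (g ⟨op i.1, i.2⟩)
      map_add' := fun a b => by
        have := hadd a.1 b.1 a.2 b.2 (a + b).2
        change e 1 (g ⟨op (a.1 + b.1), _⟩) = _
        rw [this, map_add]
      map_smul' := fun t a => by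
        have hm : op (a.1 * algebraMap K A t) ∈ I := by
          rw [← Algebra.commutes, ← Algebra.smul_def]
          exact (t • a).2
        have h2 := hmul a.1 (algebraMap K A t) a.2 hm
        have h3 : (⟨op (t • a).1, (t • a).2⟩ : I) = ⟨op (a.1 * algebraMap K A t), hm⟩ := by
          apply Subtype.ext
          change op (t • a.1) = _
          rw [Algebra.smul_def, Algebra.commutes]
        change e 1 (g ⟨op (t • a).1, (t • a).2⟩) = t • _
        rw [h3, h2, ← Algebra.commutes, ← Algebra.smul_def, map_smul] }
  obtain ⟨F, hF⟩ := LinearMap.exists_extend L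
  obtain ⟨c, hc⟩ := e.surjective F
  -- `g i = c i`
  refine ⟨{ toFun := fun x => c * x.unop
            map_add' := fun x y => by simp [mul_add]
            map_smul' := fun r x => by simp [mul_assoc] }, ?_⟩
  intro x hx
  have key : ∀ a : A, e 1 ((c * x.unop - g ⟨x, hx⟩) * a) = 0 := by
    intro a
    have hxa : op (x.unop * a) ∈ I := by
      have : op (x.unop * a) = op a * x := by
        rw [op_mul, op_unop]
      rw [this]
      exact I.mul_mem_left _ hx
    have h1 : F (x.unop * a) = e 1 (g ⟨op (x.unop * a), hxa⟩) := by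
      have := LinearMap.congr_fun hF ⟨x.unop * a, hxa⟩
      exact this
    have h2 := hmul x.unop a hx hxa
    have h3 : e 1 (c * (x.unop * a)) = F (x.unop * a) := by
      rw [← hc]
      have h6 := he 1 1 c (x.unop * a)
      rw [one_mul, one_mul, mul_one] at h6
      rw [h6]
    rw [sub_mul, map_sub, mul_assoc, h3, h1, h2]
    simp
  have h0 : c * x.unop - g ⟨x, hx⟩ = 0 := by
    set d := c * x.unop - g ⟨x, hx⟩ with hd
    have : e d = 0 := by
      apply LinearMap.ext
      intro a
      have h6 := he 1 1 d a
      rw [one_mul, one_mul, mul_one] at h6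
      rw [h6, key a]
      rfl
    exact (LinearEquiv.map_eq_zero_iff e).1 this
  exact sub_eq_zero.1 h0

/-! ### Truncated polynomial algebras -/

section trunc

open Polynomial

variable (K : Type u) [Field K] (m : ℕ)

/-- `K[X] / (X ^ m)` -/
abbrev Tr : Type u := AdjoinRoot (X ^ m : K[X])

theorem tr_finrank : Module.finrank K (Tr K m) = m := by
  rw [(AdjoinRoot.powerBasis (pow_ne_zero m (X_ne_zero (R := K)))).finrank,
    AdjoinRoot.powerBasis_dim, natDegree_X_pow]

theorem tr_finite : FiniteDimensional K (Tr K m) :=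
  (AdjoinRoot.powerBasis (pow_ne_zero m (X_ne_zero (R := K)))).finite

theorem tr_local (hm : 0 < m) : IsLocalRing (Tr K m) := by
  have hnt : Nontrivial (Tr K m) := by
    apply AdjoinRoot.nontrivial
    rw [degree_X_pow]
    exact_mod_cast hm.ne'
  apply IsLocalRing.of_isUnit_or_isUnit_one_sub_self
  intro a
  obtain ⟨f, rfl⟩ := AdjoinRoot.mk_surjective a
  have hX : AdjoinRoot.mk (X ^ m : K[X]) X ^ m = 0 := by
    rw [← map_pow]
    exact AdjoinRoot.mk_self
  have key : ∀ g : K[X], g.coeff 0 ≠ 0 → IsUnit (AdjoinRoot.mk (X ^ m : K[X]) g) := by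
    intro g hg
    have h1 : IsUnit (AdjoinRoot.mk (X ^ m : K[X]) (C (g.coeff 0))) :=
      ((Ne.isUnit hg).map C).map _
    have h2 : IsNilpotent (AdjoinRoot.mk (X ^ m : K[X]) (X * g.divX)) :=
      ⟨m, by rw [map_mul, mul_pow, hX, zero_mul]⟩
    have h3 : AdjoinRoot.mk (X ^ m : K[X]) g = AdjoinRoot.mk (X ^ m : K[X]) (C (g.coeff 0)) +
        AdjoinRoot.mk (X ^ m : K[X]) (X * g.divX) := by
      rw [← map_add]
      congr 1
      rw [add_comm]
      exact (X_mul_divX_add g).symm
    rw [h3]
    exact h2.isUnit_add_left_of_commute h1 (Commute.all _ _)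
  by_cases h0 : f.coeff 0 = 0
  · right
    rw [← map_one (AdjoinRoot.mk (X ^ m : K[X])), ← map_sub]
    apply key
    simp [h0]
  · left
    exact key f h0

/-- the coefficient of `X ^ (m - 1)` -/
noncomputable def trL : Tr K m →ₗ[K] K :=
  (lcoeff K (m - 1)) ∘ₗ (AdjoinRoot.modByMonicHom (monic_X_pow (R := K) m))

theorem tr_symmetric (hm : 0 < m) : IsSymmetricAlgebra K (Tr K m) := by
  have := tr_finite K m
  have hval : ∀ f : K[X], trL K m (AdjoinRoot.mk (X ^ m) f) = f.coeff (m - 1) := by
    intro f
    change (AdjoinRoot.modByMonicHom (monic_X_pow (R := K) m)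
      (AdjoinRoot.mk (X ^ m) f)).coeff (m - 1) = _
    rw [AdjoinRoot.modByMonicHom_mk]
    have h1 := modByMonic_add_div f (X ^ m : K[X])
    have h2 : (f %ₘ (X ^ m) + X ^ m * (f /ₘ (X ^ m))).coeff (m - 1) = f.coeff (m - 1) := by
      rw [h1]
    rw [coeff_add, coeff_X_pow_mul', if_neg (by omega), add_zero] at h2
    exact h2
  let F : Tr K m →ₗ[K] (Tr K m →ₗ[K] K) :=
    LinearMap.mk₂ K (fun b x => trL K m (b * x))
      (fun a b x => by rw [add_mul, map_add])
      (fun t b x => by rw [smul_mul_assoc, map_smul])
      (fun b x y => by rw [mul_add, map_add])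
      (fun t b x => by rw [mul_smul_comm, map_smul])
  have hF : ∀ b x, F b x = trL K m (b * x) := fun b x => rfl
  have hinj : Function.Injective F := by
    rw [← LinearMap.ker_eq_bot, LinearMap.ker_eq_bot']
    intro b hb
    obtain ⟨f, rfl⟩ := AdjoinRoot.mk_surjective b
    rw [AdjoinRoot.mk_eq_zero, X_pow_dvd_iff]
    intro d hd
    have h1 : F (AdjoinRoot.mk (X ^ m) f) (AdjoinRoot.mk (X ^ m) (X ^ (m - 1 - d))) = 0 := by
      rw [hb]
      rfl
    rw [hF, ← map_mul, hval, mul_comm, coeff_X_pow_mul', if_pos (by omega)] at h1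
    have h2 : m - 1 - (m - 1 - d) = d := by omega
    rwa [h2] at h1
  refine ⟨LinearEquiv.ofInjectiveOfFinrankEq F hinj (Subspace.dual_finrank_eq).symm, ?_⟩
  intro a b c x
  change trL K m (a * b * c * x) = trL K m (b * (c * x * a))
  congr 1
  ring

end trunc

theorem main (K R : Type u) [Field K] [CommRing R] [Algebra K R] [FiniteDimensional K R]
    [IsLocalRing R] (hR : IsSymmetricAlgebra K R) :
    ∃ (A : Type u) (_ : Ring A) (_ : Algebra K A) (i : R →ₐ[K] A),
      Function.Injective i ∧ (∀ (r : R) (a : A), i r * a = a * i r) ∧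
      FiniteDimensional K A ∧ Module.finrank K A = 16 * Module.finrank K R ∧
      IsLocalRing A ∧ IsSymmetricAlgebra K A ∧ Module.Injective Aᵐᵒᵖ A ∧
      HasSparseModule A := by
  letI : Algebra K (B R) := algK K R
  haveI : FiniteDimensional K (B R) := finite_B
  have hs : IsSymmetricAlgebra K (B R) := isSymmetric hR
  refine ⟨B R, inferInstance, inferInstance, IsScalarTower.toAlgHom K R (B R), ?_, ?_,
    inferInstance, finrank_B, isLocal, hs, selfinjective K _ hs, B R ⧸ rid (X0 : B R),
    inferInstance, inferInstance, finite_cyclic _, not_projective, ext_vanish⟩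
  · intro r s h
    have h1 : (algebraMap R (B R) r) = algebraMap R (B R) s := h
    rw [Algebra.algebraMap_eq_smul_one, Algebra.algebraMap_eq_smul_one] at h1
    have h2 := congrArg B.c0 h1
    simpa using h2
  · intro r a
    exact Algebra.commutes r a

/-- **Theorem.** Let `K` be a field.

First, for every commutative local finite-dimensional symmetric `K`-algebra `R` there are a local
symmetric (hence selfinjective) `K`-algebra `A` of dimension `16 dim R` containing `R` in its
centre, and a finitely generated nonprojective right `A`-module `M` with `Ext^n_A(M, M) = 0` for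
all `n` congruent to 1 or 2 modulo 4.

Second, for every `m ≥ 1` there is a local symmetric `K`-algebra of dimension `16 m` with such a
module. -/
theorem result (K : Type u) [Field K] :
    (∀ (R : Type u) [CommRing R] [Algebra K R] [FiniteDimensional K R] [IsLocalRing R],
      IsSymmetricAlgebra K R →
      ∃ (A : Type u) (_ : Ring A) (_ : Algebra K A) (i : R →ₐ[K] A),
        Function.Injective i ∧ (∀ (r : R) (a : A), i r * a = a * i r) ∧
        FiniteDimensional K A ∧ Module.finrank K A = 16 * Module.finrank K R ∧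
        IsLocalRing A ∧ IsSymmetricAlgebra K A ∧ Module.Injective Aᵐᵒᵖ A ∧
        HasSparseModule A) ∧
    ∀ m : ℕ, 0 < m → ∃ (A : Type u) (_ : Ring A) (_ : Algebra K A),
      FiniteDimensional K A ∧ Module.finrank K A = 16 * m ∧
      IsLocalRing A ∧ IsSymmetricAlgebra K A ∧ Module.Injective Aᵐᵒᵖ A ∧
      HasSparseModule A := by
  refine ⟨fun R _ _ _ _ hR => main K R hR, ?_⟩
  intro m hm
  have := tr_finite K m
  have := tr_local K m hm
  obtain ⟨A, h1, h2, -, -, -, h3, h4, h5⟩ := main K (Tr K m) (tr_symmetric K m hm)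
  rw [tr_finrank] at h4
  exact ⟨A, h1, h2, h3, h4, h5⟩

end Pool.Agent.Results.MP_92f261_al.TwoVanishingExts
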